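import Pool.Agent.N641.VB.Stm4

/-!
# Project VB: a countable structure with finitely many types is determined by its theory
(helper353)
-/

set_option autoImplicit false

namespace Pool.Agent.N353.VB.RNTc

open FirstOrder FirstOrder.Language Pool.Agent.N641.VB

section

variable {L : FirstOrder.Language.{0, 0}} {A B : Type} [L.Structure A] [L.Structure B]

/-- the tuples have the same type -/
def ST (L : FirstOrder.Language.{0, 0}) {A B : Type} [L.Structure A] [L.Structure B] {k : ℕ}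
    (v : Fin k → A) (w : Fin k → B) : Prop :=
  ∀ χ : L.Formula (Fin k), χ.Realize v ↔ χ.Realize w

theorem transfer (h : ∀ χ : L.Sentence, A ⊨ χ ↔ B ⊨ χ) {k : ℕ} (φ : L.Formula (Fin k))
    (hA : ∀ w : Fin k → A, φ.Realize w) (w : Fin k → B) : φ.Realize w := by
  have h1 : ∀ (C : Type) [L.Structure C],
      (C ⊨ ((φ.relabel (Sum.inr : Fin k → Empty ⊕ Fin k)).iAlls (Fin k) : L.Sentence)) ↔
        ∀ w : Fin k → C, φ.Realize w := by
    intro C _
    unfold Sentence.Realize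
    rw [Formula.realize_iAlls]
    refine forall_congr' fun w => ?_
    rw [Formula.realize_relabel]
    rfl
  exact (h1 B).1 ((h _).1 ((h1 A).2 hA)) w

/-- the variables of the formula with one variable bound -/
def ix (k : ℕ) : Fin (k + 1) → Fin k ⊕ Fin 1 :=
  Fin.lastCases (motive := fun _ => Fin k ⊕ Fin 1) (Sum.inr 0) Sum.inl

/-- the last variable is bound -/
noncomputable def exF {k : ℕ} (χ : L.Formula (Fin (k + 1))) : L.Formula (Fin k) :=
  (χ.relabel (ix k)).iExs (Fin 1)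

theorem realize_exF {k : ℕ} (χ : L.Formula (Fin (k + 1))) (v : Fin k → A) :
    (exF χ).Realize v ↔ ∃ a, χ.Realize (Fin.snoc v a : Fin (k + 1) → A) := by
  unfold exF
  rw [Formula.realize_iExs]
  have e : ∀ i : Fin 1 → A, (Sum.elim v i) ∘ ix k = (Fin.snoc v (i 0) : Fin (k + 1) → A) := by
    intro i
    funext j
    refine Fin.lastCases ?_ (fun j => ?_) j
    · simp [ix]
    · simp [ix]
  constructor
  · rintro ⟨i, hi⟩
    rw [Formula.realize_relabel, e] at hi
    exact ⟨i 0, hi⟩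
  · rintro ⟨a, ha⟩
    refine ⟨fun _ => a, ?_⟩
    rw [Formula.realize_relabel, e]
    exact ha

theorem isolate (hF : ∀ k : ℕ, {t : Set (L.Formula (Fin k)) | ∃ v : Fin k → A,
      t = {χ | χ.Realize v}}.Finite) (k : ℕ) :
    ∃ (ι : Type) (_ : Finite ι) (χ : ι → L.Formula (Fin k)) (c : (Fin k → A) → ι),
      (∀ w i, (χ i).Realize w ↔ c w = i) ∧ ∀ w w', c w = c w' → ST L w w' := by
  obtain ⟨T, hT⟩ : ∃ T : Set (Set (L.Formula (Fin k))), T = {t | ∃ v : Fin k → A,
      t = {χ | χ.Realize v}} := ⟨_, rfl⟩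
  have hfin : Finite T := by
    rw [hT]
    exact hF k
  have hmem : ∀ w : Fin k → A, {χ : L.Formula (Fin k) | χ.Realize w} ∈ T := by
    intro w
    rw [hT]
    exact ⟨w, rfl⟩
  have hsep : ∀ t t' : T, ∃ θ : L.Formula (Fin k), θ ∈ t.1 ∧ (t ≠ t' → θ ∉ t'.1) := by
    rintro ⟨t, ht⟩ ⟨t', ht'⟩
    have ht2 := ht
    have ht2' := ht'
    rw [hT] at ht2 ht2'
    obtain ⟨v, rfl⟩ := ht2
    obtain ⟨v', rfl⟩ := ht2'
    by_cases heq : ∃ θ : L.Formula (Fin k), ¬ (θ.Realize v ↔ θ.Realize v')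
    · obtain ⟨θ, hθ⟩ := heq
      by_cases h1 : θ.Realize v
      · refine ⟨θ, h1, fun _ h2 => hθ ⟨fun _ => h2, fun _ => h1⟩⟩
      · refine ⟨θ.not, h1, fun _ h2 => hθ ⟨fun h3 => absurd h3 h1, fun h3 => absurd h3 h2⟩⟩
    · refine ⟨⊤, ?_, fun hne => ?_⟩
      · show (⊤ : L.Formula (Fin k)).Realize v
        exact Formula.realize_top.2 trivial
      · exfalso
        apply hne
        apply Subtype.ext
        ext θ
        by_contra h3
        exact heq ⟨θ, h3⟩
  choose θ hθ1 hθ2 using hsep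
  refine ⟨T, hfin, fun t => Formula.iInf fun t' => θ t t', fun w => ⟨_, hmem w⟩, ?_, ?_⟩
  · intro w t
    rw [Formula.realize_iInf]
    constructor
    · intro h1
      by_contra h2
      exact hθ2 t ⟨_, hmem w⟩ (fun h3 => h2 h3.symm) (h1 ⟨_, hmem w⟩)
    · rintro rfl t'
      exact hθ1 ⟨_, hmem w⟩ t'
  · intro w w' h χ
    have h1 := congrArg Subtype.val h
    have h2 : χ ∈ {χ : L.Formula (Fin k) | χ.Realize w} ↔
        χ ∈ {χ : L.Formula (Fin k) | χ.Realize w'} := by
      simp only at h1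
      rw [h1]
    exact h2

theorem key (h : ∀ χ : L.Sentence, A ⊨ χ ↔ B ⊨ χ) {k : ℕ} {ι : Type}
    {χ : ι → L.Formula (Fin k)} {c : (Fin k → A) → ι}
    (hχ : ∀ w i, (χ i).Realize w ↔ c w = i) (hc : ∀ w w', c w = c w' → ST L w w')
    (w0 : Fin k → A) (w : Fin k → B) (hw : (χ (c w0)).Realize w) : ST L w0 w := by
  have h1 : ∀ θ : L.Formula (Fin k), θ.Realize w0 → θ.Realize w := by
    intro θ hθ
    have h2 := transfer h ((χ (c w0)).imp θ) (fun w' => by
      rw [Formula.realize_imp]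
      intro h3
      exact (hc _ _ ((hχ w' _).1 h3) θ).2 hθ) w
    rw [Formula.realize_imp] at h2
    exact h2 hw
  intro θ
  refine ⟨h1 θ, fun h3 => ?_⟩
  by_contra h4
  exact (h1 θ.not h4) h3

theorem forth (h : ∀ χ : L.Sentence, A ⊨ χ ↔ B ⊨ χ)
    (hF : ∀ k : ℕ, {t : Set (L.Formula (Fin k)) | ∃ v : Fin k → A,
      t = {χ | χ.Realize v}}.Finite) {k : ℕ} {v : Fin k → A} {w : Fin k → B} (hvw : ST L v w)
    (a : A) : ∃ b, ST L (Fin.snoc v a : Fin (k + 1) → A) (Fin.snoc w b : Fin (k + 1) → B) := by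
  obtain ⟨ι, -, χ, c, h1, h2⟩ := isolate hF (k + 1)
  have h3 : (exF (χ (c (Fin.snoc v a)))).Realize v :=
    (realize_exF _ _).2 ⟨a, (h1 _ _).2 rfl⟩
  obtain ⟨b, hb⟩ := (realize_exF _ _).1 ((hvw _).1 h3)
  exact ⟨b, key h h1 h2 _ _ hb⟩

theorem back (h : ∀ χ : L.Sentence, A ⊨ χ ↔ B ⊨ χ)
    (hF : ∀ k : ℕ, {t : Set (L.Formula (Fin k)) | ∃ v : Fin k → A,
      t = {χ | χ.Realize v}}.Finite) {k : ℕ} {v : Fin k → A} {w : Fin k → B} (hvw : ST L v w)
    (b : B) : ∃ a, ST L (Fin.snoc v a : Fin (k + 1) → A) (Fin.snoc w b : Fin (k + 1) → B) := by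
  obtain ⟨ι, hι, χ, c, h1, h2⟩ := isolate hF (k + 1)
  have h3 := transfer h (Formula.iSup χ) (fun w' => by
    rw [Formula.realize_iSup]
    exact ⟨c w', (h1 _ _).2 rfl⟩) (Fin.snoc w b : Fin (k + 1) → B)
  rw [Formula.realize_iSup] at h3
  obtain ⟨i, hi⟩ := h3
  have h4 : (exF (χ i)).Realize w := (realize_exF _ _).2 ⟨b, hi⟩
  obtain ⟨a, ha⟩ := (realize_exF _ _).1 ((hvw _).2 h4)
  refine ⟨a, key h h1 h2 _ _ ?_⟩
  rw [(h1 _ _).1 ha]
  exact hi

/-- elementary sets of pairs -/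
def E (L : FirstOrder.Language.{0, 0}) {A B : Type} [L.Structure A] [L.Structure B]
    (s : Set (A × B)) : Prop :=
  ∀ (k : ℕ) (u : Fin k → A × B), (∀ i, u i ∈ s) → ST L (fun i => (u i).1) (fun i => (u i).2)

theorem E_mono {s t : Set (A × B)} (hst : s ⊆ t) (h : E L t) : E L s :=
  fun k u hu => h k u fun i => hst (hu i)

theorem E_range {k : ℕ} (u : Fin k → A × B) (hu : ST L (fun i => (u i).1) (fun i => (u i).2)) :
    E L (Set.range u) := by
  intro k' u' hu' χ
  choose σ hσ using hu'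
  have h1 := hu (χ.relabel σ)
  rw [Formula.realize_relabel, Formula.realize_relabel] at h1
  have e1 : (fun i => (u i).1) ∘ σ = fun i => (u' i).1 := by
    funext i
    simp only [Function.comp_apply, hσ]
  have e2 : (fun i => (u i).2) ∘ σ = fun i => (u' i).2 := by
    funext i
    simp only [Function.comp_apply, hσ]
  rw [e1, e2] at h1
  exact h1

theorem E_ins {k : ℕ} (u : Fin k → A × B) (a : A) (b : B)
    (h : ST L (Fin.snoc (fun i => (u i).1) a : Fin (k + 1) → A)
      (Fin.snoc (fun i => (u i).2) b : Fin (k + 1) → B)) :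
    E L (insert (a, b) (Set.range u)) := by
  have e1 : (fun i => ((Fin.snoc u (a, b) : Fin (k + 1) → A × B) i).1) =
      (Fin.snoc (fun i => (u i).1) a : Fin (k + 1) → A) := by
    funext j
    refine Fin.lastCases ?_ (fun j => ?_) j
    · simp
    · simp
  have e2 : (fun i => ((Fin.snoc u (a, b) : Fin (k + 1) → A × B) i).2) =
      (Fin.snoc (fun i => (u i).2) b : Fin (k + 1) → B) := by
    funext j
    refine Fin.lastCases ?_ (fun j => ?_) j
    · simp
    · simp
  refine E_mono ?_ (E_range (Fin.snoc u (a, b) : Fin (k + 1) → A × B) (by rw [e1, e2]; exact h))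
  rintro x (rfl | ⟨i, rfl⟩)
  · exact ⟨Fin.last k, by simp⟩
  · exact ⟨i.castSucc, by simp⟩

theorem E_empty (h : ∀ χ : L.Sentence, A ⊨ χ ↔ B ⊨ χ) : E L (∅ : Set (A × B)) := by
  intro k u hu χ
  cases k with
  | zero =>
    constructor
    · intro h1
      exact transfer h χ (fun w => by rwa [Subsingleton.elim w (fun i => (u i).1)]) _
    · intro h1
      exact transfer (fun χ => (h χ).symm) χ
        (fun w => by rwa [Subsingleton.elim w (fun i => (u i).2)]) _
  | succ k => exact absurd (hu 0) (Set.notMem_empty _)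

theorem main [Encodable A] [Encodable B] (h : ∀ χ : L.Sentence, A ⊨ χ ↔ B ⊨ χ)
    (hF : ∀ k : ℕ, {t : Set (L.Formula (Fin k)) | ∃ v : Fin k → A,
      t = {χ | χ.Realize v}}.Finite) : Nonempty (A ≃[L] B) := by
  -- the forcing
  have hf : ∀ (p : {s : Set (A × B) // s.Finite ∧ E L s}) (a : A),
      ∃ q : {s : Set (A × B) // s.Finite ∧ E L s}, (∃ b, (a, b) ∈ q.1) ∧ p ≤ q := by
    rintro ⟨s, hs, hE⟩ a
    obtain ⟨k, u, -, rfl⟩ := hs.fin_param
    obtain ⟨b, hb⟩ := forth h hF (hE k u fun i => ⟨i, rfl⟩) a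
    exact ⟨⟨insert (a, b) (Set.range u), hs.insert _, E_ins u a b hb⟩,
      ⟨b, Set.mem_insert _ _⟩, Set.subset_insert _ _⟩
  have hb : ∀ (p : {s : Set (A × B) // s.Finite ∧ E L s}) (b : B),
      ∃ q : {s : Set (A × B) // s.Finite ∧ E L s}, (∃ a, (a, b) ∈ q.1) ∧ p ≤ q := by
    rintro ⟨s, hs, hE⟩ b
    obtain ⟨k, u, -, rfl⟩ := hs.fin_param
    obtain ⟨a, ha⟩ := back h hF (hE k u fun i => ⟨i, rfl⟩) b
    exact ⟨⟨insert (a, b) (Set.range u), hs.insert _, E_ins u a b ha⟩,
      ⟨a, Set.mem_insert _ _⟩, Set.subset_insert _ _⟩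
  let D : A ⊕ B → Order.Cofinal {s : Set (A × B) // s.Finite ∧ E L s} := fun x =>
    match x with
    | Sum.inl a => ⟨{q | ∃ b, (a, b) ∈ q.1}, fun p => hf p a⟩
    | Sum.inr b => ⟨{q | ∃ a, (a, b) ∈ q.1}, fun p => hb p b⟩
  let p0 : {s : Set (A × B) // s.Finite ∧ E L s} := ⟨∅, Set.finite_empty, E_empty h⟩
  obtain ⟨q, hq⟩ : ∃ q, q = Order.sequenceOfCofinals p0 D := ⟨_, rfl⟩
  have hmono : Monotone q := by
    rw [hq]
    exact Order.sequenceOfCofinals.monotone p0 D
  obtain ⟨G, hG⟩ : ∃ G : Set (A × B), G = ⋃ n, (q n).1 := ⟨_, rfl⟩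
  have hGE : E L G := by
    intro k u hu
    have h1 : ∀ i, ∃ n, u i ∈ (q n).1 := by
      intro i
      have h2 := hu i
      rw [hG, Set.mem_iUnion] at h2
      exact h2
    choose n hn using h1
    exact (q (Finset.univ.sup n)).2.2 k u fun i =>
      (hmono (Finset.le_sup (Finset.mem_univ i)) : (q (n i)).1 ⊆ _) (hn i)
  have htot : ∀ a, ∃ b, (a, b) ∈ G := by
    intro a
    have h1 := Order.sequenceOfCofinals.encode_mem p0 D (Sum.inl a)
    obtain ⟨b, hb⟩ := h1
    refine ⟨b, ?_⟩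
    rw [hG, Set.mem_iUnion]
    exact ⟨_, by rw [hq]; exact hb⟩
  have hsur : ∀ b, ∃ a, (a, b) ∈ G := by
    intro b
    have h1 := Order.sequenceOfCofinals.encode_mem p0 D (Sum.inr b)
    obtain ⟨a, ha⟩ := h1
    refine ⟨a, ?_⟩
    rw [hG, Set.mem_iUnion]
    exact ⟨_, by rw [hq]; exact ha⟩
  have heq : ∀ x ∈ G, ∀ y ∈ G, x.1 = y.1 ↔ x.2 = y.2 := by
    intro x hx y hy
    have h1 := hGE 2 ![x, y] (by
      intro i
      fin_cases i
      · exact hx
      · exact hy) (Term.equal (Term.var 0) (Term.var 1))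
    rw [Formula.realize_equal, Formula.realize_equal] at h1
    exact h1
  choose f hf using htot
  choose g hg using hsur
  have hgf : Function.LeftInverse g f := fun a => (heq (g (f a), f a) (hg _) (a, f a) (hf _)).2 rfl
  have hfg : Function.RightInverse g f := fun b =>
    (heq (g b, f (g b)) (hf _) (g b, b) (hg _)).1 rfl
  refine ⟨⟨⟨f, g, hgf, hfg⟩, ?_, ?_⟩⟩
  · intro n F x
    have h1 := hGE (n + 1) (Fin.snoc (fun i => (x i, f (x i)))
      (Structure.funMap F x, f (Structure.funMap F x)) : Fin (n + 1) → A × B) (by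
        intro i
        refine Fin.lastCases ?_ (fun i => ?_) i
        · simpa using hf _
        · simpa using hf _)
      (Term.equal (Term.func F fun i => Term.var (Fin.castSucc i)) (Term.var (Fin.last n)))
    rw [Formula.realize_equal, Formula.realize_equal] at h1
    simp only [Term.realize_func, Term.realize_var, Fin.snoc_castSucc, Fin.snoc_last] at h1
    exact (h1.1 trivial).symm
  · intro n R x
    have h1 := hGE n (fun i => (x i, f (x i))) (fun i => hf _)
      (Relations.formula R fun i => Term.var i)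
    rw [Formula.realize_rel, Formula.realize_rel] at h1
    simp only [Term.realize_var] at h1
    exact h1.symm

end

end Pool.Agent.N353.VB.RNTc

namespace Pool.Agent.N353.VB

open FirstOrder FirstOrder.Language

theorem RNT : Pool.Agent.N641.VB.S_RNT := by
  intro L S S' h hF
  exact @RNTc.main L ℕ ℕ S S' _ _ h hF

end Pool.Agent.N353.VB
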