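import Pool.Agent.N641.VB.Stm2
import Pool.Agent.H579R3.SB

/-!
# Project VB: Silver's theorem for countable sets of reals (helper353)

The coding of structures by points of a Polish space (first half of the file) is copied from
Pool/Agent/N649/KA/FO.lean, whose imports are not needed here.
-/

set_option autoImplicit false
set_option linter.unusedSectionVars false
set_option linter.unusedVariables false

namespace Pool.Agent.N353.VB.SILc

open Set MeasureTheory FirstOrder FirstOrder.Language

/-- relational structures on the natural numbers -/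
abbrev RS (a : ℕ → ℕ) : Type := (i : ℕ) → (Fin (a i) → ℕ) → Bool

variable {L : FirstOrder.Language.{0, 0}}

/-- arities -/
def ar : Option L.Symbols → ℕ
  | none => 0
  | some (Sum.inl f) => f.1 + 1
  | some (Sum.inr r) => r.1

open Classical in
/-- values -/
noncomputable def evr (S : L.Structure ℕ) : (o : Option L.Symbols) → (Fin (ar o) → ℕ) → Bool
  | none, _ => false
  | some (Sum.inl f), v =>
    decide (@Structure.funMap L ℕ S f.1 f.2 (fun i => v i.castSucc) = v (Fin.last f.1))
  | some (Sum.inr r), v => decide (@Structure.RelMap L ℕ S r.1 r.2 v)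

variable (e : ℕ → Option L.Symbols) (he : Function.Surjective e)

/-- coding -/
noncomputable def enc (S : L.Structure ℕ) : RS (fun i => ar (e i)) := fun i v => evr S (e i) v

/-- the index of a relation symbol -/
noncomputable def ix {n : ℕ} (R : L.Relations n) : ℕ := (he (some (Sum.inr ⟨n, R⟩))).choose

theorem ix_spec {n : ℕ} (R : L.Relations n) : e (ix e he R) = some (Sum.inr ⟨n, R⟩) :=
  (he (some (Sum.inr ⟨n, R⟩))).choose_spec

theorem ix_ar {n : ℕ} (R : L.Relations n) : ar (e (ix e he R)) = n := by
  rw [ix_spec e he R]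
  rfl

/-- the index of a function symbol -/
noncomputable def jx {n : ℕ} (F : L.Functions n) : ℕ := (he (some (Sum.inl ⟨n, F⟩))).choose

theorem jx_spec {n : ℕ} (F : L.Functions n) : e (jx e he F) = some (Sum.inl ⟨n, F⟩) :=
  (he (some (Sum.inl ⟨n, F⟩))).choose_spec

theorem jx_ar {n : ℕ} (F : L.Functions n) : ar (e (jx e he F)) = n + 1 := by
  rw [jx_spec e he F]
  rfl

/-- the graph of a function -/
def gph (x : RS (fun i => ar (e i))) {n : ℕ} (F : L.Functions n) (v : Fin n → ℕ) (b : ℕ) : Prop :=
  x (jx e he F) (fun j => (Fin.snoc v b : Fin (n + 1) → ℕ) (Fin.cast (jx_ar e he F) j)) = true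

/-- decoding -/
@[reducible] noncomputable def dec (x : RS (fun i => ar (e i))) : L.Structure ℕ where
  funMap := fun {_} F v => sInf {b | gph e he x F v b}
  RelMap := fun {_} R v => x (ix e he R) (fun j => v (Fin.cast (ix_ar e he R) j)) = true

/-- the graphs are functional -/
def cd (x : RS (fun i => ar (e i))) : Prop :=
  ∀ (f : Σ n, L.Functions n) (v : Fin f.1 → ℕ), ∃ b, gph e he x f.2 v b ∧
    ∀ b', gph e he x f.2 v b' → b' = b

theorem fun_dec {x : RS (fun i => ar (e i))} (hx : cd e he x) {n : ℕ} (F : L.Functions n)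
    (v : Fin n → ℕ) (b : ℕ) : @Structure.funMap L ℕ (dec e he x) n F v = b ↔
      gph e he x F v b := by
  obtain ⟨b0, h1, h2⟩ := hx ⟨n, F⟩ v
  have h3 : {b | gph e he x F v b} = {b0} := by
    ext b'
    constructor
    · exact fun h => h2 b' h
    · rintro rfl
      exact h1
  have h4 : @Structure.funMap L ℕ (dec e he x) n F v = b0 := by
    show sInf {b | gph e he x F v b} = b0
    rw [h3]
    exact csInf_singleton b0
  rw [h4]
  constructor
  · rintro rfl
    exact h1
  · intro h
    exact (h2 b h).symm

theorem rel_dec (x : RS (fun i => ar (e i))) {n : ℕ} (R : L.Relations n)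
    (v : Fin n → ℕ) : @Structure.RelMap L ℕ (dec e he x) n R v ↔
      x (ix e he R) (fun j => v (Fin.cast (ix_ar e he R) j)) = true := Iff.rfl

theorem evr_cast (S : L.Structure ℕ) {n : ℕ} (R : L.Relations n)
    (o : Option L.Symbols) (h : o = some (Sum.inr ⟨n, R⟩)) (h' : ar o = n) (v : Fin n → ℕ) :
    evr S o (fun j => v (Fin.cast h' j)) = true ↔ @Structure.RelMap L ℕ S n R v := by
  classical
  subst h
  exact decide_eq_true_iff

theorem evr_castF (S : L.Structure ℕ) {n : ℕ} (F : L.Functions n)
    (o : Option L.Symbols) (h : o = some (Sum.inl ⟨n, F⟩)) (h' : ar o = n + 1)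
    (v : Fin (n + 1) → ℕ) : evr S o (fun j => v (Fin.cast h' j)) = true ↔
      @Structure.funMap L ℕ S n F (fun i => v i.castSucc) = v (Fin.last n) := by
  classical
  subst h
  exact decide_eq_true_iff

theorem gph_enc (S : L.Structure ℕ) {n : ℕ} (F : L.Functions n) (v : Fin n → ℕ) (b : ℕ) :
    gph e he (enc e S) F v b ↔ @Structure.funMap L ℕ S n F v = b := by
  have h := evr_castF S F _ (jx_spec e he F) (jx_ar e he F) (Fin.snoc v b : Fin (n + 1) → ℕ)
  refine h.trans ?_
  have e1 : (fun i : Fin n => (Fin.snoc v b : Fin (n + 1) → ℕ) i.castSucc) = v := by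
    funext i
    exact Fin.snoc_castSucc (α := fun _ => ℕ) b v i
  have e2 : (Fin.snoc v b : Fin (n + 1) → ℕ) (Fin.last n) = b :=
    Fin.snoc_last (α := fun _ => ℕ) b v
  rw [e1, e2]

theorem cd_enc (S : L.Structure ℕ) : cd e he (enc e S) := by
  intro f v
  refine ⟨@Structure.funMap L ℕ S f.1 f.2 v, (gph_enc e he S f.2 v _).2 rfl, fun b' h => ?_⟩
  exact ((gph_enc e he S f.2 v _).1 h).symm

theorem struct_ext {S S' : L.Structure ℕ}
    (h' : ∀ (n : ℕ) (F : L.Functions n) (v : Fin n → ℕ),
      @Structure.funMap L ℕ S n F v = @Structure.funMap L ℕ S' n F v)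
    (h : ∀ (n : ℕ) (R : L.Relations n) (v : Fin n → ℕ),
      @Structure.RelMap L ℕ S n R v ↔ @Structure.RelMap L ℕ S' n R v) : S = S' := by
  cases S with
  | mk f r =>
    cases S' with
    | mk f' r' =>
      have h1 : @f = @f' := by
        funext n g v
        exact h' n g v
      have h2 : @r = @r' := by
        funext n R v
        exact propext (h n R v)
      subst h1 h2
      rfl

theorem dec_enc (S : L.Structure ℕ) : dec e he (enc e S) = S :=
  struct_ext (fun _ F v => (fun_dec e he (cd_enc e he S) F v _).2 ((gph_enc e he S F v _).2 rfl))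
    fun _ R v => evr_cast S R _ (ix_spec e he R) (ix_ar e he R) v

section meas

variable {Y : Type} [MeasurableSpace Y]

/-- values of terms are measurable -/
theorem meas_term {f : Y → L.Structure ℕ}
    (hF : ∀ (n : ℕ) (F : L.Functions n) (v : Fin n → ℕ) (b : ℕ),
      MeasurableSet {y | @Structure.funMap L ℕ (f y) n F v = b}) {β : Type}
    (c : β → ℕ) (t : L.Term β) : ∀ b : ℕ,
      MeasurableSet {y | @Term.realize L ℕ (f y) _ c t = b} := by
  induction t with
  | var i =>
    intro b
    show MeasurableSet {_y : Y | c i = b}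
    exact MeasurableSet.const _
  | @func n g ts ih =>
    intro b
    have e1 : {y | @Term.realize L ℕ (f y) _ c (Term.func g ts) = b} =
        ⋃ v : Fin n → ℕ, ((⋂ i, {y | @Term.realize L ℕ (f y) _ c (ts i) = v i}) ∩
          {y | @Structure.funMap L ℕ (f y) n g v = b}) := by
      ext y
      simp only [mem_iUnion, mem_inter_iff, mem_iInter]
      constructor
      · intro h
        exact ⟨fun i => @Term.realize L ℕ (f y) _ c (ts i), fun i => rfl, h⟩
      · rintro ⟨v, h1, h2⟩
        have h3 : (fun i => @Term.realize L ℕ (f y) _ c (ts i)) = v := funext h1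
        show @Structure.funMap L ℕ (f y) n g (fun i => @Term.realize L ℕ (f y) _ c (ts i)) = b
        rw [h3]
        exact h2
    rw [e1]
    exact MeasurableSet.iUnion fun v => (MeasurableSet.iInter fun i => ih i (v i)).inter
      (hF n g v b)

/-- satisfaction is measurable -/
theorem meas_realize {f : Y → L.Structure ℕ}
    (hF : ∀ (n : ℕ) (F : L.Functions n) (v : Fin n → ℕ) (b : ℕ),
      MeasurableSet {y | @Structure.funMap L ℕ (f y) n F v = b})
    (hf : ∀ (n : ℕ) (R : L.Relations n) (v : Fin n → ℕ),
      MeasurableSet {y | @Structure.RelMap L ℕ (f y) n R v}) {β : Type} {n : ℕ}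
    (φ : L.BoundedFormula β n) (c : β → ℕ) (d : Fin n → ℕ) :
    MeasurableSet {y | @BoundedFormula.Realize L ℕ (f y) _ _ φ c d} := by
  induction φ with
  | falsum =>
    have e1 : {y : Y | @BoundedFormula.Realize L ℕ (f y) _ _ BoundedFormula.falsum c d} = ∅ := rfl
    rw [e1]
    exact MeasurableSet.empty
  | @equal n t1 t2 =>
    have e1 : {y : Y | @BoundedFormula.Realize L ℕ (f y) _ _ (BoundedFormula.equal t1 t2) c d} =
        ⋃ b : ℕ, ({y | @Term.realize L ℕ (f y) _ (Sum.elim c d) t1 = b} ∩
          {y | @Term.realize L ℕ (f y) _ (Sum.elim c d) t2 = b}) := by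
      ext y
      simp only [mem_iUnion, mem_inter_iff]
      constructor
      · intro h
        have h1 : @Term.realize L ℕ (f y) _ (Sum.elim c d) t1 =
          @Term.realize L ℕ (f y) _ (Sum.elim c d) t2 := h
        exact ⟨_, rfl, h1.symm⟩
      · rintro ⟨b, h1, h2⟩
        show @Term.realize L ℕ (f y) _ (Sum.elim c d) t1 =
          @Term.realize L ℕ (f y) _ (Sum.elim c d) t2
        exact Eq.trans h1 (Eq.symm h2)
    rw [e1]
    exact MeasurableSet.iUnion fun b => (meas_term hF _ _ b).inter (meas_term hF _ _ b)
  | @rel n l R ts =>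
    have e1 : {y : Y | @BoundedFormula.Realize L ℕ (f y) _ _ (BoundedFormula.rel R ts) c d} =
        ⋃ v : Fin l → ℕ, ((⋂ i, {y | @Term.realize L ℕ (f y) _ (Sum.elim c d) (ts i) = v i}) ∩
          {y | @Structure.RelMap L ℕ (f y) l R v}) := by
      ext y
      simp only [mem_iUnion, mem_inter_iff, mem_iInter]
      constructor
      · intro h
        exact ⟨fun i => @Term.realize L ℕ (f y) _ (Sum.elim c d) (ts i), fun i => rfl, h⟩
      · rintro ⟨v, h1, h2⟩
        have h3 : (fun i => @Term.realize L ℕ (f y) _ (Sum.elim c d) (ts i)) = v := funext h1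
        show @Structure.RelMap L ℕ (f y) l R
          (fun i => @Term.realize L ℕ (f y) _ (Sum.elim c d) (ts i))
        rw [h3]
        exact h2
    rw [e1]
    exact MeasurableSet.iUnion fun v => (MeasurableSet.iInter fun i =>
      meas_term hF _ _ (v i)).inter (hf l R v)
  | @imp n f1 f2 h1 h2 =>
    have e1 : {y : Y | @BoundedFormula.Realize L ℕ (f y) _ _ (f1.imp f2) c d} =
        {y | @BoundedFormula.Realize L ℕ (f y) _ _ f1 c d}ᶜ ∪
          {y | @BoundedFormula.Realize L ℕ (f y) _ _ f2 c d} := by
      ext y
      show (_ → _) ↔ (¬ _) ∨ _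
      exact imp_iff_not_or
    rw [e1]
    exact (h1 d).compl.union (h2 d)
  | @all n g h =>
    have e1 : {y : Y | @BoundedFormula.Realize L ℕ (f y) _ _ g.all c d} =
        ⋂ k : ℕ, {y | @BoundedFormula.Realize L ℕ (f y) _ _ g c (Fin.snoc d k)} := by
      ext y
      rw [mem_iInter]
      exact Iff.rfl
    rw [e1]
    exact MeasurableSet.iInter fun k => h (Fin.snoc d k)

end meas

theorem clopen_gph {n : ℕ} (F : L.Functions n) (v : Fin n → ℕ) (b : ℕ) :
    IsClopen {x : RS (fun i => ar (e i)) | gph e he x F v b} := by
  have h1 : Continuous fun x : RS (fun i => ar (e i)) =>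
      x (jx e he F) (fun j => (Fin.snoc v b : Fin (n + 1) → ℕ) (Fin.cast (jx_ar e he F) j)) :=
    (continuous_apply _).comp (continuous_apply (jx e he F))
  exact (isClopen_discrete {true}).preimage h1

theorem meas_gph {n : ℕ} (F : L.Functions n) (v : Fin n → ℕ) (b : ℕ) :
    MeasurableSet {x : RS (fun i => ar (e i)) | gph e he x F v b} :=
  (clopen_gph e he F v b).isOpen.measurableSet

theorem meas_fun {n : ℕ} (F : L.Functions n) (v : Fin n → ℕ) (b : ℕ) :
    MeasurableSet {x : RS (fun i => ar (e i)) |
      @Structure.funMap L ℕ (dec e he x) n F v = b} := by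
  have e1 : {x : RS (fun i => ar (e i)) | @Structure.funMap L ℕ (dec e he x) n F v = b} =
      ({x | gph e he x F v b} ∩ ⋂ k : ℕ, ({x | gph e he x F v k}ᶜ ∪ {_x | b ≤ k})) ∪
        ({_x | b = 0} ∩ ⋂ k : ℕ, {x | gph e he x F v k}ᶜ) := by
    ext x
    simp only [mem_union, mem_inter_iff, mem_iInter, mem_compl_iff, mem_ofPred_eq]
    show sInf {b | gph e he x F v b} = b ↔ _
    constructor
    · intro h
      by_cases h2 : ∃ k, gph e he x F v k
      · left
        have h3 := Nat.sInf_mem (s := {b | gph e he x F v b}) h2
        rw [h] at h3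
        refine ⟨h3, fun k => ?_⟩
        by_cases h4 : gph e he x F v k
        · right
          rw [← h]
          exact Nat.sInf_le h4
        · exact Or.inl h4
      · right
        push Not at h2
        refine ⟨?_, h2⟩
        have h3 : {b | gph e he x F v b} = ∅ := by
          ext k
          simpa using h2 k
        rw [h3, Nat.sInf_empty] at h
        exact h.symm
    · rintro (⟨h1, h2⟩ | ⟨h1, h2⟩)
      · apply le_antisymm (Nat.sInf_le h1)
        have h3 := Nat.sInf_mem (s := {b | gph e he x F v b}) ⟨b, h1⟩
        exact (h2 _).resolve_left (fun h => h h3)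
      · have h3 : {b | gph e he x F v b} = ∅ := by
          ext k
          simpa using h2 k
        rw [h3, Nat.sInf_empty, h1]
  rw [e1]
  exact ((meas_gph e he F v b).inter (MeasurableSet.iInter fun k =>
    (meas_gph e he F v k).compl.union (MeasurableSet.const _))).union
    ((MeasurableSet.const _).inter (MeasurableSet.iInter fun k => (meas_gph e he F v k).compl))

theorem clopen_rel {n : ℕ} (R : L.Relations n) (v : Fin n → ℕ) :
    IsClopen {x : RS (fun i => ar (e i)) | @Structure.RelMap L ℕ (dec e he x) n R v} := by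
  have h1 : Continuous fun x : RS (fun i => ar (e i)) =>
      x (ix e he R) (fun j => v (Fin.cast (ix_ar e he R) j)) :=
    (continuous_apply _).comp (continuous_apply (ix e he R))
  exact (isClopen_discrete {true}).preimage h1

theorem meas_rel {n : ℕ} (R : L.Relations n) (v : Fin n → ℕ) :
    MeasurableSet {x : RS (fun i => ar (e i)) | @Structure.RelMap L ℕ (dec e he x) n R v} :=
  (clopen_rel e he R v).isOpen.measurableSet

theorem meas_cd (hL : Countable L.Symbols) :
    MeasurableSet {x : RS (fun i => ar (e i)) | cd e he x} := by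
  have hF : Countable (Σ n, L.Functions n) := by
    have hL' : Countable ((Σ n, L.Functions n) ⊕ Σ n, L.Relations n) := hL
    exact (Sum.inl_injective (β := Σ n, L.Relations n)).countable
  have e1 : {x : RS (fun i => ar (e i)) | cd e he x} =
      ⋂ f : Σ n, L.Functions n, ⋂ v : Fin f.1 → ℕ, ⋃ b : ℕ, ({x | gph e he x f.2 v b} ∩
        ⋂ b' : ℕ, ({x | gph e he x f.2 v b'}ᶜ ∪ {_x | b' = b})) := by
    ext x
    simp only [mem_iUnion, mem_union, mem_inter_iff, mem_iInter, mem_compl_iff, mem_ofPred_eq]
    unfold cd
    refine forall_congr' fun f => forall_congr' fun v => exists_congr fun b =>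
      and_congr_right fun _ => forall_congr' fun b' => ?_
    exact imp_iff_not_or
  rw [e1]
  exact MeasurableSet.iInter fun f => MeasurableSet.iInter fun v => MeasurableSet.iUnion fun b =>
    (meas_gph e he _ _ _).inter (MeasurableSet.iInter fun b' =>
      (meas_gph e he _ _ _).compl.union (MeasurableSet.const _))

/-- the codes of the models -/
def BT (T : L.Theory) : Set (RS (fun i => ar (e i))) :=
  {x | (enc e (dec e he x) = x ∧ cd e he x) ∧ @Theory.Model L ℕ (dec e he x) T}

theorem meas_BT (hL : Countable L.Symbols) (T : L.Theory) : MeasurableSet (BT e he T) := by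
  classical
  have h1 : MeasurableSet {x : RS (fun i => ar (e i)) | enc e (dec e he x) = x} := by
    have e1 : {x : RS (fun i => ar (e i)) | enc e (dec e he x) = x} =
        ⋂ i : ℕ, ⋂ v : Fin (ar (e i)) → ℕ, {x | evr (dec e he x) (e i) v = x i v} := by
      ext x
      simp only [mem_iInter]
      constructor
      · intro h i v
        exact congrFun (congrFun h i) v
      · intro h
        funext i v
        exact h i v
    rw [e1]
    refine MeasurableSet.iInter fun i => MeasurableSet.iInter fun v => ?_
    have h2 : MeasurableSet {x : RS (fun i => ar (e i)) | x i v = true} := by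
      have h3 : Continuous fun x : RS (fun i => ar (e i)) => x i v :=
        (continuous_apply v).comp (continuous_apply i)
      exact ((isClopen_discrete {true}).preimage h3).isOpen.measurableSet
    have h3 : ∀ (o : Option L.Symbols) (v : Fin (ar o) → ℕ),
        MeasurableSet {x : RS (fun i => ar (e i)) | evr (dec e he x) o v = true} := by
      intro o v
      rcases o with _ | f | r
      · have e2 : {x : RS (fun i => ar (e i)) | evr (dec e he x) none v = true} = ∅ := by
          ext x
          simp [evr]
        rw [e2]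
        exact MeasurableSet.empty
      · have e2 : {x : RS (fun i => ar (e i)) | evr (dec e he x) (some (Sum.inl f)) v = true} =
            {x | @Structure.funMap L ℕ (dec e he x) f.1 f.2 (fun i => v i.castSucc) =
              v (Fin.last f.1)} := by
          ext x
          exact decide_eq_true_iff
        rw [e2]
        exact meas_fun e he f.2 _ _
      · have e2 : {x : RS (fun i => ar (e i)) | evr (dec e he x) (some (Sum.inr r)) v = true} =
            {x | @Structure.RelMap L ℕ (dec e he x) r.1 r.2 v} := by
          ext x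
          exact decide_eq_true_iff
        rw [e2]
        exact meas_rel e he r.2 v
    have e3 : {x : RS (fun i => ar (e i)) | evr (dec e he x) (e i) v = x i v} =
        ({x | evr (dec e he x) (e i) v = true} ∩ {x | x i v = true}) ∪
        ({x | evr (dec e he x) (e i) v = true}ᶜ ∩ {x | x i v = true}ᶜ) := by
      ext x
      simp only [mem_ofPred_eq, mem_union, mem_inter_iff, mem_compl_iff]
      cases evr (dec e he x) (e i) v <;> cases x i v <;> simp
    rw [e3]
    exact ((h3 _ v).inter h2).union ((h3 _ v).compl.inter h2.compl)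
  have hcs : Countable L.Sentence := by
    have h3 : Cardinal.mk (Σ n, L.BoundedFormula Empty n) ≤ Cardinal.aleph0 := by
      refine BoundedFormula.card_le.trans ?_
      refine max_le le_rfl ?_
      rw [Cardinal.mk_eq_zero Empty]
      simp only [zero_add, Cardinal.lift_id]
      exact Cardinal.mk_le_aleph0
    have h4 : Countable (Σ n, L.BoundedFormula Empty n) := Cardinal.mk_le_aleph0_iff.1 h3
    exact (sigma_mk_injective (β := fun n => L.BoundedFormula Empty n) (i := 0)).countable
  have h2 : MeasurableSet {x : RS (fun i => ar (e i)) |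
      @Theory.Model L ℕ (dec e he x) T} := by
    have e1 : {x : RS (fun i => ar (e i)) | @Theory.Model L ℕ (dec e he x) T} =
        ⋂ φ : T, {x | @Sentence.Realize L ℕ (dec e he x) φ} := by
      ext x
      rw [mem_iInter]
      constructor
      · intro h φ
        exact @Theory.realize_sentence_of_mem L ℕ (dec e he x) T h φ φ.2
      · intro h
        exact @Theory.Model.mk L ℕ (dec e he x) T fun φ hφ => h ⟨φ, hφ⟩
    rw [e1]
    have : Countable T := Subtype.countable
    exact MeasurableSet.iInter fun φ => meas_realize (fun n F v b => meas_fun e he F v b)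
      (fun n R v => meas_rel e he R v) _ _ _
  exact (h1.inter (meas_cd e he hL)).inter h2

/-! ### Silver's theorem for the ranges of invariants -/

theorem polish_RS (a : ℕ → ℕ) : PolishSpace (RS a) := by
  have h0 : PolishSpace Bool := inferInstance
  have h1 : ∀ i, PolishSpace ((Fin (a i) → ℕ) → Bool) := fun i => inferInstance
  exact inferInstance

theorem meas_dec {L : FirstOrder.Language.{0, 0}} (e : ℕ → Option L.Symbols)
    (he : Function.Surjective e) :
    @Measurable (RS (fun i => ar (e i))) (L.Structure ℕ) _ (Pool.Agent.N641.VB.SM L)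
      (dec e he) := by
  refine @measurable_generateFrom _ _ _ _ _ ?_
  rintro U (⟨n, R, v, rfl⟩ | ⟨n, F, v, b, rfl⟩)
  · exact meas_rel e he R v
  · exact meas_fun e he F v b

theorem meas_E {X : Type} [MeasurableSpace X] (W : X → ℕ → (ℕ → Bool))
    (hW : ∀ m k, MeasurableSet {x | W x m k = true}) :
    MeasurableSet {q : X × X | Set.range (W q.1) = Set.range (W q.2)} := by
  have h1 : ∀ m k, Measurable fun x => W x m k := fun m k => measurable_to_bool (hW m k)
  have e1 : {q : X × X | Set.range (W q.1) = Set.range (W q.2)} =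
      (⋂ m : ℕ, ⋃ m' : ℕ, ⋂ k : ℕ, {q : X × X | W q.1 m k = W q.2 m' k}) ∩
      (⋂ m' : ℕ, ⋃ m : ℕ, ⋂ k : ℕ, {q : X × X | W q.1 m k = W q.2 m' k}) := by
    ext q
    simp only [mem_inter_iff, mem_iInter, mem_iUnion, mem_ofPred_eq]
    constructor
    · intro h
      constructor
      · intro m
        have h2 : W q.1 m ∈ Set.range (W q.2) := h ▸ Set.mem_range_self m
        obtain ⟨m', h3⟩ := h2
        exact ⟨m', fun k => by rw [h3]⟩
      · intro m'
        have h2 : W q.2 m' ∈ Set.range (W q.1) := h ▸ Set.mem_range_self m'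
        obtain ⟨m, h3⟩ := h2
        exact ⟨m, fun k => by rw [h3]⟩
    · rintro ⟨h2, h3⟩
      apply Set.Subset.antisymm
      · rintro _ ⟨m, rfl⟩
        obtain ⟨m', h4⟩ := h2 m
        exact ⟨m', (funext h4).symm⟩
      · rintro _ ⟨m', rfl⟩
        obtain ⟨m, h4⟩ := h3 m'
        exact ⟨m, funext h4⟩
  rw [e1]
  have h2 : ∀ m m' k, MeasurableSet {q : X × X | W q.1 m k = W q.2 m' k} := fun m m' k =>
    measurableSet_eq_fun ((h1 m k).comp measurable_fst) ((h1 m' k).comp measurable_snd)
  exact (MeasurableSet.iInter fun m => MeasurableSet.iUnion fun m' =>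
    MeasurableSet.iInter fun k => h2 m m' k).inter (MeasurableSet.iInter fun m' =>
      MeasurableSet.iUnion fun m => MeasurableSet.iInter fun k => h2 m m' k)

end Pool.Agent.N353.VB.SILc

namespace Pool.Agent.N353.VB

open Set MeasureTheory FirstOrder FirstOrder.Language
open Pool.Agent.N353.VB.SILc

theorem SIL : Pool.Agent.N641.VB.S_SIL := by
  classical
  intro L hL T V hV hI hP
  have hne : Nonempty (Option L.Symbols) := ⟨none⟩
  obtain ⟨e, he⟩ : ∃ e : ℕ → Option L.Symbols, Function.Surjective e := exists_surjective_nat _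
  have hWm : ∀ m k, MeasurableSet {x : RS (fun i => ar (e i)) | V (dec e he x) m k = true} :=
    fun m k => meas_dec e he (hV m k)
  have hEm := meas_E (fun x : RS (fun i => ar (e i)) => V (dec e he x)) hWm
  have hE : Equivalence fun x y : RS (fun i => ar (e i)) =>
      Set.range (V (dec e he x)) = Set.range (V (dec e he y)) :=
    ⟨fun _ => rfl, fun h => h.symm, fun h h' => h.trans h'⟩
  have hPol : PolishSpace (RS (fun i => ar (e i))) := polish_RS _
  rcases Pool.Agent.H579R3.SV.silver hE hEm (meas_BT e he hL T).analyticSet with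
    ⟨S, hSA, hSc, hS⟩ | ⟨h, h1, h2, h3⟩
  · have h4 : (⋃ y ∈ S, Set.range (V (dec e he y))).Countable :=
      hSc.biUnion fun y _ => Set.countable_range _
    refine h4.mono ?_
    rintro v ⟨S0, hS0, m, rfl⟩
    have h5 : enc e S0 ∈ BT e he T := by
      refine ⟨⟨by rw [dec_enc], cd_enc e he S0⟩, ?_⟩
      rw [dec_enc]
      exact hS0
    obtain ⟨y, hy, hxy⟩ := hS _ h5
    rw [dec_enc] at hxy
    refine Set.mem_biUnion hy ?_
    rw [← hxy]
    exact Set.mem_range_self m
  · exfalso
    apply hP
    refine ⟨fun b => dec e he (h b), fun b => (h2 b).2, ?_, ?_, ?_⟩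
    · intro x y hxy
      by_contra hne'
      apply h3 x y hne'
      have hyx : Nonempty (@FirstOrder.Language.Equiv L ℕ ℕ (dec e he (h y)) (dec e he (h x))) := by
        obtain ⟨τ⟩ := hxy
        exact ⟨@FirstOrder.Language.Equiv.symm L ℕ ℕ (dec e he (h x)) (dec e he (h y)) τ⟩
      apply Set.Subset.antisymm
      · rintro _ ⟨m, rfl⟩
        exact hI _ _ hxy m
      · rintro _ ⟨m, rfl⟩
        exact hI _ _ hyx m
    · intro n R v
      exact (clopen_rel e he R v).preimage h1
    · intro n F v b
      have e1 : {c : ℕ → Bool | @Structure.funMap L ℕ (dec e he (h c)) n F v = b} =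
          h ⁻¹' {x | gph e he x F v b} := by
        ext c
        exact fun_dec e he (h2 c).1.2 F v b
      rw [e1]
      exact ((clopen_gph e he F v b).preimage h1).isOpen

end Pool.Agent.N353.VB
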