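import Pool.Agent.N641.VB.Stm

/-!
# Project VB: the set of realised types is closed (helper353)
-/

set_option autoImplicit false

namespace Pool.Agent.N353.VB

open Pool.Agent.N641.VB

section

variable {M : Type} {A : ℕ → Type} [∀ j, BooleanAlgebra (A j)]
  {U : Ultrafilter ℕ} {B : Type} [BooleanAlgebra B] {f : (∀ j, A j) → B}

theorem f_mono (hle : ∀ x y, f x ≤ f y ↔ ∀ᶠ j in U, x j ≤ y j) {x y : ∀ j, A j}
    (h : ∀ j, x j ≤ y j) : f x ≤ f y :=
  (hle x y).2 (Filter.Eventually.of_forall h)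

theorem f_congr {x y : ∀ j, A j} (h : ∀ j, x j = y j) : f x = f y := by
  rw [funext h]

theorem f_bot (hs : Function.Surjective f) (hle : ∀ x y, f x ≤ f y ↔ ∀ᶠ j in U, x j ≤ y j) :
    f (fun _ => ⊥) = ⊥ := by
  obtain ⟨x, hx⟩ := hs ⊥
  have h1 : f (fun _ => ⊥) ≤ f x := f_mono hle fun j => bot_le
  rw [hx] at h1
  exact le_bot_iff.1 h1

theorem f_inf (hs : Function.Surjective f) (hle : ∀ x y, f x ≤ f y ↔ ∀ᶠ j in U, x j ≤ y j)
    (x y : ∀ j, A j) : f (fun j => x j ⊓ y j) = f x ⊓ f y := by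
  apply le_antisymm
  · exact le_inf (f_mono hle fun j => inf_le_left) (f_mono hle fun j => inf_le_right)
  · obtain ⟨z, hz⟩ := hs (f x ⊓ f y)
    have h1 : f z ≤ f x := by rw [hz]; exact inf_le_left
    have h2 : f z ≤ f y := by rw [hz]; exact inf_le_right
    rw [← hz, hle]
    exact ((hle z x).1 h1).mp (((hle z y).1 h2).mono fun j hj hj' => le_inf hj' hj)

theorem f_sup (hs : Function.Surjective f) (hle : ∀ x y, f x ≤ f y ↔ ∀ᶠ j in U, x j ≤ y j)
    (x y : ∀ j, A j) : f (fun j => x j ⊔ y j) = f x ⊔ f y := by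
  apply le_antisymm
  · obtain ⟨z, hz⟩ := hs (f x ⊔ f y)
    have h1 : f x ≤ f z := by rw [hz]; exact le_sup_left
    have h2 : f y ≤ f z := by rw [hz]; exact le_sup_right
    rw [← hz, hle]
    exact ((hle x z).1 h1).mp (((hle y z).1 h2).mono fun j hj hj' => sup_le hj' hj)
  · exact sup_le (f_mono hle fun j => le_sup_left) (f_mono hle fun j => le_sup_right)

theorem f_sdiff (hs : Function.Surjective f) (hle : ∀ x y, f x ≤ f y ↔ ∀ᶠ j in U, x j ≤ y j)
    (x y : ∀ j, A j) : f (fun j => x j \ y j) = f x \ f y := by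
  symm
  apply sdiff_unique
  · rw [← f_inf hs hle, ← f_sup hs hle]
    exact f_congr fun j => sup_inf_sdiff _ _
  · rw [← f_inf hs hle, ← f_inf hs hle, ← f_bot hs hle]
    exact f_congr fun j => inf_inf_sdiff _ _

theorem f_eq_bot (hs : Function.Surjective f) (hle : ∀ x y, f x ≤ f y ↔ ∀ᶠ j in U, x j ≤ y j)
    (x : ∀ j, A j) : f x = ⊥ ↔ ∀ᶠ j in U, x j = ⊥ := by
  rw [← le_bot_iff, ← f_bot hs hle, hle]
  simp only [le_bot_iff]

end

theorem claim {M : Type} [AddCommMonoid M] [Finite M] {A : ℕ → Type} [∀ j, BooleanAlgebra (A j)]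
    (mu : ∀ j, A j → M) (U : Ultrafilter ℕ) {B : Type} [BooleanAlgebra B] (nu : B → M)
    (f : (∀ j, A j) → B) (hs : Function.Surjective f)
    (hle : ∀ x y, f x ≤ f y ↔ ∀ᶠ j in U, x j ≤ y j)
    (hnu : ∀ x v, (∀ᶠ j in U, mu j (x j) = v) → nu (f x) = v) :
    ∀ (k : ℕ) (x : ∀ j, A j) (s : TP M k), (∀ᶠ j in U, tp (mu j) k (x j) = s) →
      tp nu k (f x) = s := by
  intro k
  induction k with
  | zero =>
    intro x s h
    have h0 : ∀ᶠ j in U, ((x j = ⊥) = (show Prop from s)) := h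
    show (f x = ⊥) = (show Prop from s)
    apply propext
    rw [f_eq_bot hs hle]
    constructor
    · intro h1
      obtain ⟨j, hj1, hj2⟩ := (h1.and h0).exists
      rw [← hj2]
      exact hj1
    · intro h1
      exact h0.mono fun j hj => by
        rw [hj]
        exact h1
  | succ k ih =>
    intro x s h
    have hF : Finite (TP M k) := instF k
    refine Prod.ext ?_ (Set.ext fun q => ?_)
    · exact hnu x s.1 (h.mono fun j hj => congrArg Prod.fst hj)
    · constructor
      · rintro ⟨b, hb, rfl⟩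
        obtain ⟨y, hy⟩ := hs b
        -- the reduction to `y ≤ x`
        obtain ⟨y', hy', hyx⟩ : ∃ y' : ∀ j, A j, f y' = b ∧ ∀ j, y' j ≤ x j := by
          refine ⟨fun j => y j ⊓ x j, ?_, fun j => inf_le_right⟩
          rw [f_inf hs hle, hy]
          exact inf_eq_left.2 hb
        obtain ⟨p1, hp1⟩ := (Ultrafilter.eventually_exists_iff (f := U)
          (P := fun (p : TP M k) j => tp (mu j) k (y' j) = p)).1
          (Filter.Eventually.of_forall fun j => ⟨_, rfl⟩)
        obtain ⟨p2, hp2⟩ := (Ultrafilter.eventually_exists_iff (f := U)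
          (P := fun (p : TP M k) j => tp (mu j) k (x j \ y' j) = p)).1
          (Filter.Eventually.of_forall fun j => ⟨_, rfl⟩)
        have e1 := ih y' p1 hp1
        have e2 := ih (fun j => x j \ y' j) p2 hp2
        rw [f_sdiff hs hle] at e2
        rw [hy'] at e1 e2
        rw [e1, e2]
        obtain ⟨j, hj, hj1, hj2⟩ := (h.and (hp1.and hp2)).exists
        rw [← hj]
        exact ⟨y' j, hyx j, by rw [hj1, hj2]⟩
      · intro hq
        have h1 : ∀ᶠ j in U, ∃ y : A j, y ≤ x j ∧ q = (tp (mu j) k y, tp (mu j) k (x j \ y)) := by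
          refine h.mono fun j hj => ?_
          rw [← hj] at hq
          obtain ⟨y, hy, e⟩ := hq
          exact ⟨y, hy, e⟩
        have h2 : ∀ j, ∃ y : A j, y ≤ x j ∧
            ((∃ y : A j, y ≤ x j ∧ q = (tp (mu j) k y, tp (mu j) k (x j \ y))) →
              q = (tp (mu j) k y, tp (mu j) k (x j \ y))) := by
          intro j
          by_cases hc : ∃ y : A j, y ≤ x j ∧ q = (tp (mu j) k y, tp (mu j) k (x j \ y))
          · obtain ⟨y, hy, e⟩ := hc
            exact ⟨y, hy, fun _ => e⟩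
          · exact ⟨⊥, bot_le, fun hc' => absurd hc' hc⟩
        choose y hyx hy using h2
        have h3 : ∀ᶠ j in U, q = (tp (mu j) k (y j), tp (mu j) k (x j \ y j)) :=
          h1.mono fun j hj => hy j hj
        have e1 := ih y q.1 (h3.mono fun j hj => (congrArg Prod.fst hj).symm)
        have e2 := ih (fun j => x j \ y j) q.2 (h3.mono fun j hj => (congrArg Prod.snd hj).symm)
        rw [f_sdiff hs hle] at e2
        exact ⟨f y, f_mono hle hyx, by rw [e1, e2]⟩

theorem UP (ULT : S_ULT) : S_UP := by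
  intro M _ _ t h
  choose s hR hs using h
  choose A iA mu a hAM ha using hR
  obtain ⟨B, iB, nu, f, hnu, hsurj, hle, hmu⟩ := ULT M A mu hAM (Filter.hyperfilter ℕ)
  refine ⟨B, iB, nu, f a, hnu, funext fun k => ?_⟩
  refine claim mu (Filter.hyperfilter ℕ) nu f hsurj hle hmu k a (t k) ?_
  have h1 : ∀ᶠ j in Filter.atTop, k ≤ j := Filter.eventually_ge_atTop k
  have h2 : ∀ᶠ j in (Filter.hyperfilter ℕ : Ultrafilter ℕ), k ≤ j :=
    Nat.hyperfilter_le_atTop h1
  refine h2.mono fun j hj => ?_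
  have h3 : ft (mu j) (a j) k = s j k := congrFun (ha j) k
  rw [← hs j k hj, ← h3]
  rfl

end Pool.Agent.N353.VB
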